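import Pool.Agent.PI.Z1
import Pool.Agent.PI.D15
import Pool.Agent.PIL.Z
import Pool.Agent.PIL.AR

/-! # [PI] the final theorem for every `(ε, S)` which satisfies the condition -/

set_option autoImplicit false

open NumberField IsDedekindDomain
open scoped Classical ComplexConjugate

namespace PI

/-- **Rank part and 2-part for every good `(ε, S)`.** -/
theorem final_two (e : Gi) (S : Finset Gi) (h : GoodS e S) :
    SBSD2.TwoPartRankZero (W ((eG (e * ∏ p ∈ S, p) : 𝓞 KI) : KI)) := by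
  have ad : Adm e S := ⟨h.1, h.2.1⟩
  obtain ⟨Φ, hΦ, hs⟩ := L_entire ad
  obtain ⟨q, hq, hv, hL⟩ := L_value h Φ hΦ hs
  obtain ⟨h1, h2, h3⟩ := desc_main e S h (eG (e * ∏ p ∈ S, p)) rfl
  exact twoPart_of e S h Om Om_pos area Φ hΦ hs q hq hv hL h1 h2 h3

end PI
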