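import Pool.Agent.PI.QR

/-!
# [PI] infinitely many `(ε, S)` which satisfy the condition, with any number of primes
-/

set_option autoImplicit false

open scoped Classical

namespace PI

theorem zi_prime {q : ℕ} (hq : q.Prime) (h : q % 8 = 3) :
    Prime (-(q : Gi)) ∧ Prim (-(q : Gi)) ∧ sy la (-(q : Gi)) = 1 := by
  have : Fact q.Prime := ⟨hq⟩
  have h1 : Prime (-(q : Gi)) := (GaussianInt.prime_of_nat_prime_of_mod_four_eq_three q (by omega)).neg
  have hre : (-(q : Gi)).re = -(q : ℤ) := by simp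
  have him : (-(q : Gi)).im = 0 := by simp
  have h2 : Prim (-(q : Gi)) := by
    rw [qr_prim_iff, hre, him]
    omega
  refine ⟨h1, h2, ?_⟩
  rcases sy_cases la (-(q : Gi)) with h3 | h3
  · exfalso
    rw [sy_la _ h1 h2, hre, him] at h3
    omega
  · exact h3

theorem zi_sy {q r : ℕ} (hq : q.Prime) (h : q % 8 = 3) : sy (-(r : Gi)) (-(q : Gi)) = 0 := by
  have : Fact q.Prime := ⟨hq⟩
  rw [qr_sy_inert (by omega), qr_norm]
  exact ⟨(r : ZMod q), by simp [pow_two]⟩

/-- the set of the elements `-q`, `q ∈ T` -/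
noncomputable def ziS (T : Finset ℕ) : Finset Gi := Finset.image (fun q : ℕ => -(q : Gi)) T

theorem zi_inj : Function.Injective fun q : ℕ => -(q : Gi) := by
  intro a b h
  have h1 : (a : Gi) = (b : Gi) := neg_injective h
  exact_mod_cast h1

theorem zi_good (T : Finset ℕ) (hT : ∀ q ∈ T, q.Prime ∧ q % 8 = 3) : GoodS la (ziS T) := by
  have hla : la ≠ 1 := by
    unfold la
    decide
  refine ⟨?_, Or.inr (Or.inr (Or.inl rfl)), ?_, fun h => absurd h hla⟩
  · intro p hp
    obtain ⟨q, hq, rfl⟩ := Finset.mem_image.1 hp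
    obtain ⟨h1, h2, -⟩ := zi_prime (hT q hq).1 (hT q hq).2
    exact ⟨h1, h2⟩
  · intro _ z hz
    have h1 : LM la (ziS T) = 1 := by
      ext j k
      obtain ⟨q, hq, hqj⟩ := Finset.mem_image.1 j.2
      obtain ⟨r, hr, hrk⟩ := Finset.mem_image.1 k.2
      unfold LM
      split_ifs with hjk
      · subst hjk
        rw [Matrix.one_apply_eq, Finset.sum_eq_zero, add_zero]
        · rw [← hqj]
          exact (zi_prime (hT q hq).1 (hT q hq).2).2.2
        · intro l hl
          obtain ⟨s, hs, rfl⟩ := Finset.mem_image.1 (Finset.mem_of_mem_erase hl)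
          rw [← hqj]
          exact zi_sy (hT q hq).1 (hT q hq).2
      · rw [Matrix.one_apply_ne hjk, ← hqj, ← hrk]
        exact zi_sy (hT q hq).1 (hT q hq).2
    rw [h1, Matrix.one_mulVec] at hz
    exact hz

/-- For every `r` there are infinitely many `S` of cardinality `r`. -/
theorem infinite_good (r : ℕ) (hr : 0 < r) :
    {d : Gi | ∃ S : Finset Gi, S.card = r ∧ GoodS la S ∧ d = la * ∏ p ∈ S, p}.Infinite := by
  have hP : {q : ℕ | q.Prime ∧ q % 8 = 3}.Infinite := by
    have h1 := Nat.infinite_setOfPred_prime_and_eq_mod (q := 8) (a := 3) (by decide)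
    refine h1.mono ?_
    rintro q ⟨h2, h3⟩
    refine ⟨h2, ?_⟩
    have h4 : (q : ZMod 8) = ((3 : ℕ) : ZMod 8) := by exact_mod_cast h3
    rw [ZMod.natCast_eq_natCast_iff] at h4
    exact h4
  -- a fixed set of `r - 1` primes and one more
  obtain ⟨T, hT, hTc⟩ := hP.exists_subset_card_eq (r - 1)
  have hP2 : ({q : ℕ | q.Prime ∧ q % 8 = 3} \ (T : Set ℕ)).Infinite := hP.sdiff T.finite_toSet
  refine Set.infinite_of_injOn_mapsTo (f := fun q : ℕ => la * ∏ p ∈ ziS (insert q T), p) ?_ ?_ hP2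
  · rintro q ⟨hq, hqT⟩ s ⟨hs, hsT⟩ h
    have hla : la ≠ 0 := by
      unfold la
      decide
    have h1 := mul_left_cancel₀ hla h
    have hqT' : q ∉ T := hqT
    have hsT' : s ∉ T := hsT
    have h2 : ∀ t : ℕ, t ∉ T → ∏ p ∈ ziS (insert t T), p = -(t : Gi) * ∏ p ∈ ziS T, p := by
      intro t ht
      unfold ziS
      rw [Finset.image_insert, Finset.prod_insert]
      intro h3
      obtain ⟨u, hu, hut⟩ := Finset.mem_image.1 h3
      exact ht (zi_inj hut ▸ hu)
    rw [h2 q hqT', h2 s hsT'] at h1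
    have h3 : ∏ p ∈ ziS T, p ≠ 0 := by
      rw [Finset.prod_ne_zero_iff]
      intro p hp
      obtain ⟨u, hu, rfl⟩ := Finset.mem_image.1 hp
      exact (zi_prime (hT hu).1 (hT hu).2).1.ne_zero
    exact zi_inj (mul_right_cancel₀ h3 h1)
  · rintro q ⟨hq, hqT⟩
    have hqT' : q ∉ T := hqT
    refine ⟨ziS (insert q T), ?_, zi_good _ ?_, rfl⟩
    · unfold ziS
      rw [Finset.card_image_of_injective _ zi_inj, Finset.card_insert_of_notMem hqT', hTc]
      omega
    · intro t ht
      rcases Finset.mem_insert.1 ht with rfl | ht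
      · exact hq
      · exact hT ht

end PI
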