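import Pool.Agent.PI.Z
import Pool.Agent.PI.ZI

/-! # [PI] the final theorem in terms of `d : ℤ[i]` -/

set_option autoImplicit false

open NumberField IsDedekindDomain
open scoped Classical ComplexConjugate

namespace PI

theorem zr_coe (d : Gi) : ((eG d : 𝓞 KI) : KI) = (d.re : KI) + (d.im : KI) * ⟨Complex.I, I_mem⟩ := by
  apply Subtype.ext
  rw [eG_coe, em_apply]
  simp

theorem zr_neg {R : Type*} [CommRing R] (d : R) : W (-d) = W d := by
  unfold W
  rw [neg_pow_two]

theorem final_d (d : Gi) (h : ∃ (e : Gi) (S : Finset Gi), GoodS e S ∧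
    (d = e * ∏ p ∈ S, p ∨ d = -(e * ∏ p ∈ S, p))) :
    SBSD2.TwoPartRankZero (W ((eG d : 𝓞 KI) : KI)) := by
  obtain ⟨e, S, hg, rfl | rfl⟩ := h
  · exact final_two e S hg
  · have h1 : W ((eG (-(e * ∏ p ∈ S, p)) : 𝓞 KI) : KI) = W ((eG (e * ∏ p ∈ S, p) : 𝓞 KI) : KI) := by
      rw [map_neg]
      exact zr_neg _
    rw [h1]
    exact final_two e S hg

theorem good_ne_zero {e : Gi} {S : Finset Gi} (h : GoodS e S) : e * ∏ p ∈ S, p ≠ 0 := by
  refine mul_ne_zero ?_ (Finset.prod_ne_zero_iff.2 fun p hp => (h.1 p hp).1.ne_zero)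
  rcases h.2.1 with rfl | rfl | rfl | rfl
  · exact one_ne_zero
  · unfold ii
    decide
  · unfold la
    decide
  · unfold ii la
    decide

end PI
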